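import Pool.Agent.L7h4.FR.Five

/-!
# Project F5, part CON: the main construction
-/

set_option autoImplicit false

namespace Pool.Agent.L7h53.F5

open Matrix Pool.Agent.L7h4.F5

theorem det_one_add_vmv {n : ℕ} (y e : Fin n → ℂ) :
    (1 + vecMulVec y e : Matrix (Fin n) (Fin n) ℂ).det = 1 + e ⬝ᵥ y := by
  rw [vecMulVec_eq Unit, det_one_add_replicateCol_mul_replicateRow]

/-- the conclusion from one polynomial `c` -/
theorem good_of_c (hHESS : S_HESS) (hORBH : S_ORBH) (hCYC : S_CYC) (hCMP : S_CMP)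
    (hPLC : S_PLC) (n : ℕ) (hn : 3 ≤ n) (U : Mat n) (κ : ℂ) (hU : Upp U)
    (hδ : U.det = 1 ∨ U.det = -1) (hκ : κ * κ = 1) (c : Fin n → ℂ)
    (hc0 : c ⟨0, by omega⟩ = κ * U.det)
    (hc : ∀ i j : Fin n, (i : ℕ) + j = n → c i = (κ * U.det) * c j) (x y : Fin n → ℂ)
    (hx : x = fun i => - (((U * cyc n κ) ^ (n - 1)) (last n (by omega)) ⟨0, by omega⟩)⁻¹ *
      (((U * cyc n κ) ^ n) i ⟨0, by omega⟩ + ∑ j : Fin n, c j * ((U * cyc n κ) ^ (j : ℕ)) i ⟨0, by omega⟩))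
    (hy : (U * cyc n κ) *ᵥ y = x) (hw : κ • (JJ n κ *ᵥ y) ≠ y) : Good 5 U := by
  obtain ⟨hff, hJJ, hfJ, hc1, hc2, hdet, hHc, heJ, hJv, hUH, hUcol⟩ := hCYC n hn κ hκ
  set H := U * cyc n κ with hH
  have hHes : Hes H := hUH U hU
  obtain ⟨-, hKdet, -, hη, -⟩ := hHESS n (by omega) H hHes
  set e : Fin n → ℂ := Pi.single (last n (by omega)) 1 with he
  set K : Mat n := Matrix.of fun i k : Fin n => (H ^ (k : ℕ)) i ⟨0, by omega⟩ with hK
  have hKu : IsUnit K.det := isUnit_iff_ne_zero.2 hKdet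
  have hKK : K * K⁻¹ = 1 := Matrix.mul_nonsing_inv K hKu
  have hKK' : K⁻¹ * K = 1 := Matrix.nonsing_inv_mul K hKu
  set R : Mat n := H + vecMulVec x e with hR
  have hRK : R * K = K * Comp n c := by
    have := hPLC n (by omega) H c hHes
    rw [← hx] at this
    exact this
  have hRc : R = K * Comp n c * K⁻¹ := by
    rw [← hRK, mul_assoc, hKK, mul_one]
  set σ : ℂ := κ * U.det with hσ
  have hσσ : σ * σ = 1 := by
    have : σ * σ = (κ * κ) * (U.det * U.det) := by rw [hσ]; ring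
    rw [this, hκ]
    rcases hδ with h | h <;> rw [h] <;> norm_num
  have hσ0 : σ ≠ 0 := by
    intro h
    rw [h] at hσσ
    simp at hσσ
  obtain ⟨hCd, hCf⟩ := hCMP n (by omega) c σ hσσ
  have hCf := hCf hc0 hc
  rw [hc0] at hCd
  have hRdet : R.det = (-1) ^ n * σ := by
    rw [hRc, det_mul, det_mul, hCd]
    have : K.det * K⁻¹.det = 1 := by rw [← det_mul, hKK, det_one]
    calc K.det * ((-1) ^ n * σ) * K⁻¹.det = (K.det * K⁻¹.det) * ((-1) ^ n * σ) := by ring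
      _ = _ := by rw [this, one_mul]
  have hHdet : H.det = (-1) ^ (n - 1) * σ := by
    rw [hH, det_mul, hdet, hσ]; ring
  set S : Mat n := 1 + vecMulVec y e with hS
  have hRS : R = H * S := by
    rw [hS, mul_add, mul_one, mul_vecMulVec, hy]
  have hey : e ⬝ᵥ y = -2 := by
    have h1 : H.det * S.det = R.det := by rw [hRS, det_mul H S]
    have h2 : S.det = 1 + e ⬝ᵥ y := det_one_add_vmv y e
    rw [h2, hRdet, hHdet] at h1
    obtain ⟨m, rfl⟩ : ∃ m, n = m + 1 := ⟨n - 1, by omega⟩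
    rw [Nat.add_sub_cancel, pow_succ] at h1
    have h3 : ((-1 : ℂ) ^ m * σ) ≠ 0 := mul_ne_zero (pow_ne_zero _ (by norm_num)) hσ0
    have h4 : ((-1 : ℂ) ^ m * σ) * (e ⬝ᵥ y + 2) = 0 := by linear_combination h1
    rcases mul_eq_zero.1 h4 with h5 | h5
    · exact absurd h5 h3
    · linear_combination h5
  have hSS : S * S = 1 := by
    have h1 : S * S = 1 + vecMulVec y e + (vecMulVec y e + vecMulVec y e * vecMulVec y e) := by
      rw [hS]; noncomm_ring
    rw [h1, vecMulVec_mul_vecMulVec, hey]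
    ext i j
    simp only [Matrix.add_apply, vecMulVec_apply, Pi.smul_apply, smul_eq_mul]
    ring
  have hconj : ∀ X Y : Mat n, (K * X * K⁻¹) * (K * Y * K⁻¹) = K * (X * Y) * K⁻¹ := by
    intro X Y
    calc (K * X * K⁻¹) * (K * Y * K⁻¹) = K * X * (K⁻¹ * K) * Y * K⁻¹ := by simp only [mul_assoc]
      _ = _ := by rw [hKK', mul_one]; simp only [mul_assoc]
  set F : Mat n := Pool.Agent.L7h4.F5.flip n with hF
  set A1 : Mat n := K * F * K⁻¹ with hA1d
  set A2 : Mat n := K * (F * Comp n c) * K⁻¹ with hA2d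
  have hA1 : A1 * A1 = 1 := by rw [hA1d, hconj, hff, mul_one, hKK]
  have hA2 : A2 * A2 = 1 := by rw [hA2d, hconj, hCf, mul_one, hKK]
  have hA12 : A1 * A2 = R := by rw [hA1d, hA2d, hconj, ← mul_assoc F F, hff, one_mul, hRc]
  have hUfin : A1 * (A2 * (S * (JJ n κ * F))) = U := by
    rw [← mul_assoc A1 A2, hA12, hRS, mul_assoc H S, ← mul_assoc S S, hSS, one_mul, hH, mul_assoc,
      hc1, mul_one]
  have hyl : ∀ v : Fin n → ℂ, e ⬝ᵥ v = v (last n (by omega)) := by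
    intro v
    rw [he, single_one_dotProduct]
  have heJy : e ⬝ᵥ (JJ n κ *ᵥ y) = -2 * κ := by
    rw [Matrix.dotProduct_mulVec, heJ, smul_dotProduct, hey, smul_eq_mul]
    ring
  set w : Fin n → ℂ := κ • (JJ n κ *ᵥ y) - y with hwd
  have hw0 : w ≠ 0 := sub_ne_zero.2 hw
  have hwl : w (last n (by omega)) = 0 := by
    rw [← hyl w, hwd, dotProduct_sub, dotProduct_smul, heJy, hey, smul_eq_mul]
    linear_combination (-2) * hκ
  have hT : S * (JJ n κ * S * JJ n κ) = 1 + vecMulVec w e := by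
    have h1 : JJ n κ * S * JJ n κ = 1 + vecMulVec (JJ n κ *ᵥ y) (κ • e) := by
      rw [hS, mul_add, mul_one, add_mul, hJJ, mul_vecMulVec, vecMulVec_mul, heJ]
    have h2 : S * (1 + vecMulVec (JJ n κ *ᵥ y) (κ • e)) = 1 + vecMulVec (JJ n κ *ᵥ y) (κ • e) +
        (vecMulVec y e + vecMulVec y e * vecMulVec (JJ n κ *ᵥ y) (κ • e)) := by
      rw [hS]; noncomm_ring
    rw [h1, h2, vecMulVec_mul_vecMulVec, heJy, hwd]
    ext i j
    simp only [Matrix.add_apply, vecMulVec_apply, Pi.smul_apply, Pi.sub_apply, smul_eq_mul]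
    linear_combination (-2 * y i * e j) * hκ
  have hHR : Hes R := by
    have h0 : ∀ i j : Fin n, (j : ℕ) + 1 ≤ i → R i j = H i j := by
      intro i j hij
      have hj : j ≠ last n (by omega) := by
        intro h
        rw [h] at hij
        have := i.isLt
        simp only [last] at hij
        omega
      rw [hR, Matrix.add_apply, vecMulVec_apply, he, Pi.single_eq_of_ne hj, mul_zero, add_zero]
    refine ⟨fun i j hij => ?_, fun i j hij => ?_⟩
    · rw [h0 i j hij.le]; exact hHes.1 i j hij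
    · rw [h0 i j hij.le]; exact hHes.2 i j hij
  refine ⟨![A1, A2, S, JJ n κ, F], ?_, ?_, ?_⟩
  · intro i
    fin_cases i
    · exact hA1
    · exact hA2
    · exact hSS
    · exact hJJ
    · exact hff
  · rw [← hUfin]
    simp [List.ofFn_succ]
  · set G := Submonoid.closure (Set.range ![A1, A2, S, JJ n κ, F]) with hG
    have hm : ∀ i, ![A1, A2, S, JJ n κ, F] i ∈ G := fun i =>
      Submonoid.subset_closure (Set.mem_range_self i)
    have m1 : A1 ∈ G := hm 0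
    have m2 : A2 ∈ G := hm 1
    have m3 : S ∈ G := hm 2
    have m4 : JJ n κ ∈ G := hm 3
    refine hORBH n (by omega) G w R (A2 * A1) hw0 hwl ?_ ?_ (G.mul_mem m2 m1) ?_ ?_ hHR
    · rw [← he, ← hT]
      exact G.mul_mem m3 (G.mul_mem (G.mul_mem m4 m3) m4)
    · rw [← hA12]; exact G.mul_mem m1 m2
    · rw [← hA12, mul_assoc, ← mul_assoc A2 A2, hA2, one_mul, hA1]
    · rw [← hA12, mul_assoc, ← mul_assoc A1 A1, hA1, one_mul, hA2]

theorem s_CON (hHESS : S_HESS) (hORBH : S_ORBH) (hCYC : S_CYC) (hCMP : S_CMP)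
    (hPLC : S_PLC) : S_CON := by
  intro n hn U κ hU hδ hκ hne
  by_contra hG
  obtain ⟨-, -, -, -, -, hdet, -, -, hJv, hUH, -⟩ := hCYC n hn κ hκ
  have hHes : Hes (U * cyc n κ) := hUH U hU
  obtain ⟨-, -, -, hη, -⟩ := hHESS n (by omega) _ hHes
  have hδ0 : U.det ≠ 0 := by
    rcases hδ with h | h <;> rw [h] <;> norm_num
  have hκ0 : κ ≠ 0 := by
    intro h
    rw [h] at hκ
    simp at hκ
  have hHdet : (U * cyc n κ).det ≠ 0 := by
    rw [det_mul, hdet]
    exact mul_ne_zero hδ0 (mul_ne_zero hκ0 (pow_ne_zero _ (by norm_num)))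
  have hHu : IsUnit (U * cyc n κ).det := isUnit_iff_ne_zero.2 hHdet
  set σ : ℂ := κ * U.det with hσ
  have hσσ : σ * σ = 1 := by
    have : σ * σ = (κ * κ) * (U.det * U.det) := by rw [hσ]; ring
    rw [this, hκ]
    rcases hδ with h | h <;> rw [h] <;> norm_num
  set c0 : Fin n → ℂ := fun j => if (j : ℕ) = 0 then σ else 0 with hc0
  set c1 : Fin n → ℂ := fun j => c0 j + (if j = ⟨1, by omega⟩ then 1 else 0) +
    (if j = ⟨n - 1, by omega⟩ then σ else 0) with hc1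
  have hc00 : c0 ⟨0, by omega⟩ = σ := by simp [hc0]
  have hc10 : c1 ⟨0, by omega⟩ = σ := by
    have h1 : (0 : ℕ) ≠ n - 1 := by omega
    simp [hc1, hc0, Fin.ext_iff, h1]
  have hr0 : ∀ i j : Fin n, (i : ℕ) + j = n → c0 i = σ * c0 j := by
    intro i j hij
    have h1 : (i : ℕ) ≠ 0 := by have := j.isLt; omega
    have h2 : (j : ℕ) ≠ 0 := by have := i.isLt; omega
    simp [hc0, h1, h2]
  have hr1 : ∀ i j : Fin n, (i : ℕ) + j = n → c1 i = σ * c1 j := by
    intro i j hij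
    have e1 : (i = ⟨1, by omega⟩) ↔ (j = ⟨n - 1, by omega⟩) := by
      rw [Fin.ext_iff, Fin.ext_iff]
      show (i : ℕ) = 1 ↔ (j : ℕ) = n - 1
      omega
    have e2 : (i = ⟨n - 1, by omega⟩) ↔ (j = ⟨1, by omega⟩) := by
      rw [Fin.ext_iff, Fin.ext_iff]
      show (i : ℕ) = n - 1 ↔ (j : ℕ) = 1
      omega
    simp only [hc1]
    rw [hr0 i j hij]
    simp only [e1, e2]
    have : ¬ (j = ⟨1, by omega⟩ ∧ j = (⟨n - 1, by omega⟩ : Fin n)) := by
      rintro ⟨h1, h2⟩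
      have h3 := congrArg Fin.val (h1.symm.trans h2)
      simp only at h3
      omega
    by_cases h1 : j = ⟨1, by omega⟩
    · have h2 : ¬ (j = (⟨n - 1, by omega⟩ : Fin n)) := fun h => this ⟨h1, h⟩
      rw [if_pos h1, if_neg h2, if_neg h2, if_pos h1]
      ring
    · rw [if_neg h1, if_neg h1]
      by_cases h2 : j = (⟨n - 1, by omega⟩ : Fin n)
      · rw [if_pos h2, if_pos h2]
        linear_combination (-1 : ℂ) * hσσ
      · rw [if_neg h2, if_neg h2]; ring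
  set H := U * cyc n κ with hH
  set η : ℂ := (H ^ (n - 1)) (last n (by omega)) ⟨0, by omega⟩ with hηd
  set X : (Fin n → ℂ) → Fin n → ℂ := fun c i => - η⁻¹ *
      ((H ^ n) i ⟨0, by omega⟩ + ∑ j : Fin n, c j * (H ^ (j : ℕ)) i ⟨0, by omega⟩) with hX
  have hYX : ∀ c, H *ᵥ (H⁻¹ *ᵥ X c) = X c := by
    intro c
    rw [mulVec_mulVec, Matrix.mul_nonsing_inv H hHu, one_mulVec]
  have key : ∀ c : Fin n → ℂ, c ⟨0, by omega⟩ = σ → (∀ i j : Fin n, (i : ℕ) + j = n → c i = σ * c j) →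
      κ • (JJ n κ *ᵥ (H⁻¹ *ᵥ X c)) = H⁻¹ *ᵥ X c := by
    intro c h1 h2
    by_contra h3
    exact hG (good_of_c hHESS hORBH hCYC hCMP hPLC n hn U κ hU hδ hκ c h1 h2 (X c) _ rfl (hYX c) h3)
  have k0 := key c0 hc00 hr0
  have k1 := key c1 hc10 hr1
  set d : Fin n → ℂ := H⁻¹ *ᵥ X c1 - H⁻¹ *ᵥ X c0 with hd
  have kd : κ • (JJ n κ *ᵥ d) = d := by
    rw [hd, mulVec_sub, smul_sub, k0, k1]
  set v : Fin n → ℂ := fun i => (1 : Mat n) i ⟨0, by omega⟩ + σ * (H ^ (n - 2)) i ⟨0, by omega⟩ with hv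
  have hHv : ∀ i, (H *ᵥ v) i = H i ⟨0, by omega⟩ + σ * (H ^ (n - 1)) i ⟨0, by omega⟩ := by
    intro i
    have h1 : H i ⟨0, by omega⟩ = ∑ j, H i j * (1 : Mat n) j ⟨0, by omega⟩ := by
      rw [← Matrix.mul_apply, mul_one]
    have h2 : (H ^ (n - 1)) i ⟨0, by omega⟩ = ∑ j, H i j * (H ^ (n - 2)) j ⟨0, by omega⟩ := by
      have h3 : n - 1 = n - 2 + 1 := by omega
      rw [← Matrix.mul_apply, h3, pow_succ']
    rw [h2, Finset.mul_sum]
    conv_rhs => rw [h1]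
    rw [← Finset.sum_add_distrib]
    unfold Matrix.mulVec dotProduct
    refine Finset.sum_congr rfl fun j _ => ?_
    rw [hv]
    ring
  have hHd : H *ᵥ d = H *ᵥ (-η⁻¹ • v) := by
    rw [hd, mulVec_sub, hYX, hYX, mulVec_smul]
    funext i
    rw [Pi.sub_apply, Pi.smul_apply, hHv, smul_eq_mul]
    have h1 : ∑ j : Fin n, c1 j * (H ^ (j : ℕ)) i ⟨0, by omega⟩ =
        ∑ j : Fin n, c0 j * (H ^ (j : ℕ)) i ⟨0, by omega⟩ + H i ⟨0, by omega⟩ +
          σ * (H ^ (n - 1)) i ⟨0, by omega⟩ := by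
      simp only [hc1, add_mul, Finset.sum_add_distrib, ite_mul, one_mul, zero_mul,
        Finset.sum_ite_eq', Finset.mem_univ, if_true, pow_one]
    simp only [hX]
    rw [h1]
    ring
  have hdv : d = -η⁻¹ • v := by
    have h1 : H⁻¹ *ᵥ (H *ᵥ d) = H⁻¹ *ᵥ (H *ᵥ (-η⁻¹ • v)) := by rw [hHd]
    rwa [mulVec_mulVec, mulVec_mulVec, Matrix.nonsing_inv_mul H hHu, one_mulVec, one_mulVec] at h1
  have kv : κ • (JJ n κ *ᵥ v) = v := by
    rw [hdv, mulVec_smul, smul_comm] at kd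
    exact smul_right_injective _ (neg_ne_zero.2 (inv_ne_zero hη)) kd
  have k2 := congrFun kv ⟨n - 2, by omega⟩
  rw [Pi.smul_apply, hJv v ⟨n - 2, by omega⟩ (by simp only; omega), smul_eq_mul] at k2
  have h3 : (⟨n - 2 - (n - 2), by omega⟩ : Fin n) = ⟨0, by omega⟩ := Fin.ext (by simp)
  rw [h3] at k2
  simp only [hv] at k2
  rw [Matrix.one_apply_eq, Matrix.one_apply_ne (by
    intro h
    rw [Fin.ext_iff] at h
    simp only at h
    omega)] at k2
  apply hne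
  set z0 := (H ^ (n - 2)) ⟨0, by omega⟩ ⟨0, by omega⟩
  set z1 := (H ^ (n - 2)) ⟨n - 2, by omega⟩ ⟨0, by omega⟩
  have h4 : κ * (κ * (1 + σ * z0)) = κ * (0 + σ * z1) := by rw [k2]
  rw [hσ] at h4
  linear_combination (-1 : ℂ) * h4 + (1 + κ * U.det * z0 - U.det * z1) * hκ

end Pool.Agent.L7h53.F5
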